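import Mathlib

namespace Pool.Agent.Results.MP_dc9045_nt.TwoPrimes

open Finset

/-- The expected absorption time, through its recurrence over proper divisors. -/
noncomputable def a (n : ℕ) : ℚ :=
  if n ≤ 1 then 0 else
    ((n : ℚ) + ∑ d ∈ n.properDivisors.attach, (Nat.totient d.1 : ℚ) * a d.1) /
      ((n : ℚ) - Nat.totient n)
termination_by n
decreasing_by exact (Nat.mem_properDivisors.mp d.2).2

theorem a_rec (n : ℕ) (hn : 1 < n) :
    ∑ d ∈ n.divisors, (Nat.totient d : ℚ) * a d = n * (a n - 1) := by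
  have h1 : a n = ((n : ℚ) + ∑ d ∈ n.properDivisors, (Nat.totient d : ℚ) * a d) /
      ((n : ℚ) - Nat.totient n) := by
    rw [a, if_neg (by omega), sum_attach n.properDivisors fun d => (Nat.totient d : ℚ) * a d]
  have h2 : (n : ℚ) - Nat.totient n ≠ 0 := by
    have : (Nat.totient n : ℚ) < n := by exact_mod_cast Nat.totient_lt n hn
    linarith
  rw [eq_div_iff h2] at h1
  rw [← Nat.insert_self_properDivisors (by omega), sum_insert Nat.self_notMem_properDivisors]
  linear_combination -h1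

noncomputable def W (p q i j : ℕ) : ℚ :=
  ∑ u ∈ range (i + 1), ∑ v ∈ range (j + 1), (Nat.totient (p ^ u * q ^ v) : ℚ) * a (p ^ u * q ^ v)

noncomputable def V (p q i j : ℕ) : ℚ := W p q i j / ((p : ℚ) ^ i * (q : ℚ) ^ j) + 1

theorem W_eq (p q i j : ℕ) (hp : p.Prime) (hq : q.Prime) (hpq : p ≠ q) :
    W p q i j = ∑ d ∈ (p ^ i * q ^ j).divisors, (Nat.totient d : ℚ) * a d := by
  have hc : (p ^ i).Coprime (q ^ j) := Nat.coprime_pow_primes i j hp hq hpq
  rw [Nat.divisors_mul, Finset.mul_def, sum_image hc.mul_injOn_divisors, sum_product,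
    Nat.sum_divisors_prime_pow hp]
  refine sum_congr rfl fun u _ => ?_
  rw [Nat.sum_divisors_prime_pow hq]

theorem V_eq (p q i j : ℕ) (hp : p.Prime) (hq : q.Prime) (hpq : p ≠ q) (h : 1 ≤ i + j) :
    V p q i j = a (p ^ i * q ^ j) := by
  have h1 : 1 < p ^ i * q ^ j := by
    rcases Nat.eq_zero_or_pos i with rfl | hi
    · simpa using Nat.one_lt_pow (by omega) hq.one_lt
    · exact (Nat.one_lt_pow (by omega) hp.one_lt).trans_le
        (Nat.le_mul_of_pos_right _ (pow_pos hq.pos _))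
  have hp0 : (p : ℚ) ≠ 0 := by exact_mod_cast hp.ne_zero
  have hq0 : (q : ℚ) ≠ 0 := by exact_mod_cast hq.ne_zero
  rw [V, W_eq p q i j hp hq hpq, a_rec _ h1]
  push_cast
  field_simp
  ring

theorem W_V (p q i j : ℕ) (hp : p.Prime) (hq : q.Prime) :
    W p q i j = (p : ℚ) ^ i * (q : ℚ) ^ j * (V p q i j - 1) := by
  have hp0 : (p : ℚ) ≠ 0 := by exact_mod_cast hp.ne_zero
  have hq0 : (q : ℚ) ≠ 0 := by exact_mod_cast hq.ne_zero
  rw [V]
  field_simp
  ring

theorem tot (p i : ℕ) (hp : p.Prime) :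
    (Nat.totient (p ^ (i + 1)) : ℚ) = (p : ℚ) ^ i * (p - 1) := by
  rw [Nat.totient_prime_pow_succ hp, Nat.cast_mul, Nat.cast_sub hp.one_le]
  simp

theorem V00 (p q : ℕ) : V p q 0 0 = 1 := by
  have : a 1 = 0 := by rw [a]; simp
  simp [V, W, this]

theorem Vi0 (p q : ℕ) (hp : p.Prime) (hq : q.Prime) (hpq : p ≠ q) (i : ℕ) :
    V p q i 0 = i * ((p : ℚ) - 1) + 1 := by
  induction i with
  | zero => simp [V00]
  | succ i ih =>
    have h : W p q (i + 1) 0 = W p q i 0 + (p : ℚ) ^ i * (p - 1) * V p q (i + 1) 0 := by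
      rw [V_eq p q (i + 1) 0 hp hq hpq (by omega), W, sum_range_succ, ← tot p i hp]
      simp [W]
    rw [W_V p q _ _ hp hq, W_V p q _ _ hp hq, ih] at h
    have hp0 : (p : ℚ) ^ i ≠ 0 := pow_ne_zero _ (by exact_mod_cast hp.ne_zero)
    apply mul_left_cancel₀ hp0
    push_cast
    linear_combination h

theorem V0j (p q : ℕ) (hp : p.Prime) (hq : q.Prime) (hpq : p ≠ q) (j : ℕ) :
    V p q 0 j = j * ((q : ℚ) - 1) + 1 := by
  rw [← Vi0 q p hq hp hpq.symm j]
  simp [V, W]

theorem Vrec (p q : ℕ) (hp : p.Prime) (hq : q.Prime) (hpq : p ≠ q) (i j : ℕ) :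
    ((p : ℚ) + q - 1) * V p q (i + 1) (j + 1) =
      q * V p q i (j + 1) + p * V p q (i + 1) j - V p q i j + ((p : ℚ) - 1) * (q - 1) := by
  have hc : (p ^ (i + 1)).Coprime (q ^ (j + 1)) := Nat.coprime_pow_primes _ _ hp hq hpq
  have h : W p q (i + 1) (j + 1) + W p q i j = W p q i (j + 1) + W p q (i + 1) j +
      (p : ℚ) ^ i * (p - 1) * ((q : ℚ) ^ j * (q - 1)) * V p q (i + 1) (j + 1) := by
    rw [V_eq p q (i + 1) (j + 1) hp hq hpq (by omega), ← tot p i hp, ← tot q j hq, ← Nat.cast_mul,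
      ← Nat.totient_mul hc]
    unfold W
    rw [sum_range_succ _ (i + 1), sum_range_succ _ (i + 1), sum_range_succ _ (j + 1)]
    ring
  rw [W_V p q _ _ hp hq, W_V p q _ _ hp hq, W_V p q _ _ hp hq, W_V p q _ _ hp hq] at h
  have hp0 : (p : ℚ) ^ i ≠ 0 := pow_ne_zero _ (by exact_mod_cast hp.ne_zero)
  have hq0 : (q : ℚ) ^ j ≠ 0 := pow_ne_zero _ (by exact_mod_cast hq.ne_zero)
  apply mul_left_cancel₀ (mul_ne_zero hp0 hq0)
  linear_combination h

theorem core (p q : ℕ) (hp : p.Prime) (hq : q.Prime) (hpq : p ≠ q) (g t r : ℤ)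
    (hs : (p : ℤ) + q - 1 = g * t) (hr : (p : ℤ) = g * r) (hg : g ≠ 0) (k : ℕ) :
    ∀ j : ℕ, ∃ m : ℤ, ((p : ℚ) + q - 1) ^ k * (t : ℚ) ^ j * V p q (k + 1) j = m ∧
      (1 ≤ k + j → t ∣ m - (p - 1) * q ^ k * r ^ j * ((k + j - 1).choose k : ℤ)) := by
  have hs' : (p : ℚ) + q - 1 = g * t := by exact_mod_cast hs
  have hr' : (p : ℚ) = g * r := by exact_mod_cast hr
  have hg' : (g : ℚ) ≠ 0 := by exact_mod_cast hg
  have hs0 : (p : ℚ) + q - 1 ≠ 0 := by
    have h1 : (1 : ℚ) < p := by exact_mod_cast hp.one_lt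
    have h2 : (0 : ℚ) ≤ q := by positivity
    linarith
  induction k with
  | zero =>
    intro j
    have hE : (t : ℚ) ^ j * (V p q 1 j - (j * ((q : ℚ) - 1) + 1)) = ((p : ℚ) - 1) * r ^ j := by
      induction j with
      | zero => rw [Vi0 p q hp hq hpq]; simp
      | succ j ih =>
        have h := Vrec p q hp hq hpq 0 j
        rw [V0j p q hp hq hpq, V0j p q hp hq hpq, zero_add] at h
        apply mul_left_cancel₀ hg'
        push_cast at h ⊢
        linear_combination (t : ℚ) ^ j * h + (g * r : ℚ) * ih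
          - (t : ℚ) ^ j * (V p q 1 (j + 1) - ((j + 1) * ((q : ℚ) - 1) + 1)) * hs'
          + (t : ℚ) ^ j * (V p q 1 j - (j * ((q : ℚ) - 1) + 1)) * hr'
    refine ⟨t ^ j * (j * (q - 1) + 1) + (p - 1) * r ^ j, ?_, fun hj => ?_⟩
    · push_cast
      linear_combination hE
    · simp only [pow_zero, mul_one, Nat.choose_zero_right, Nat.cast_one, add_sub_cancel_right]
      exact (dvd_pow_self t (by omega)).mul_right _
  | succ k ihk =>
    intro j
    induction j with
    | zero =>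
      refine ⟨(p + q - 1) ^ (k + 1) * ((k + 1 + 1 : ℕ) * (p - 1) + 1), ?_, fun _ => ?_⟩
      · rw [Vi0 p q hp hq hpq]; push_cast; ring
      · have : (k + 1 + 0 - 1).choose (k + 1) = 0 := Nat.choose_eq_zero_of_lt (by omega)
        rw [this, hs]
        simp only [Nat.cast_zero, mul_zero, sub_zero]
        exact ((dvd_mul_left t g).trans (dvd_pow_self _ (by omega))).mul_right _
    | succ j ihj =>
      obtain ⟨m1, e1, d1⟩ := ihk (j + 1)
      obtain ⟨m2, e2, d2⟩ := ihj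
      obtain ⟨m3, e3, -⟩ := ihk j
      have h := Vrec p q hp hq hpq (k + 1) j
      refine ⟨q * m1 + r * m2 - t * m3 + (p - 1) * (q - 1) * (p + q - 1) ^ k * t ^ (j + 1), ?_,
        fun _ => ?_⟩
      · push_cast
        rw [← e1, ← e2, ← e3]
        linear_combination ((p : ℚ) + q - 1) ^ k * (t : ℚ) ^ (j + 1) * h
          + ((p : ℚ) + q - 1) ^ k * (t : ℚ) ^ j * V p q (k + 1 + 1) j * (t * hr' - r * hs')
      · have hc : (k + 1 + (j + 1) - 1).choose (k + 1)
            = (k + (j + 1) - 1).choose k + (k + 1 + j - 1).choose (k + 1) := by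
          rw [show k + 1 + (j + 1) - 1 = (k + j) + 1 by omega, show k + (j + 1) - 1 = k + j by omega,
            show k + 1 + j - 1 = k + j by omega, Nat.choose_succ_succ]
        obtain ⟨c1, hc1⟩ := d1 (by omega)
        obtain ⟨c2, hc2⟩ := d2 (by omega)
        refine ⟨q * c1 + r * c2 - m3 + (p - 1) * (q - 1) * (p + q - 1) ^ k * t ^ j, ?_⟩
        rw [hc]
        push_cast
        linear_combination q * hc1 + r * hc2

theorem half (p q i j : ℕ) (hp : p.Prime) (hq : q.Prime) (hpq : p ≠ q) (hn : ¬ q ∣ p + q - 1) :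
    1 < (p + q - 1) / Nat.gcd (p + q - 1) (p * q) ∧
    ∀ z : ℤ, a (p ^ (i + 1) * q ^ (j + 1)) = z →
      (p + q - 1) / Nat.gcd (p + q - 1) (p * q) ∣ (i + j).choose i := by
  have hp2 := hp.two_le
  have hq2 := hq.two_le
  have hcq : (p + q - 1).Coprime q := ((Nat.Prime.coprime_iff_not_dvd hq).mpr hn).symm
  rw [Nat.Coprime.gcd_mul_right_cancel_right p hcq.symm]
  obtain ⟨g, hg⟩ : ∃ g, g = Nat.gcd (p + q - 1) p := ⟨_, rfl⟩
  rw [← hg]
  have hg0 : 0 < g := hg ▸ Nat.gcd_pos_of_pos_right _ hp.pos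
  obtain ⟨t, ht⟩ : g ∣ p + q - 1 := hg ▸ Nat.gcd_dvd_left _ _
  obtain ⟨r, hr⟩ : g ∣ p := hg ▸ Nat.gcd_dvd_right _ _
  have htt : (p + q - 1) / g = t := by rw [ht, Nat.mul_div_cancel_left _ hg0]
  have hrr : p / g = r := by rw [hr, Nat.mul_div_cancel_left _ hg0]
  have htr : t.Coprime r := by
    rw [← htt, ← hrr, hg]
    exact Nat.coprime_div_gcd_div_gcd (hg ▸ hg0)
  have hts : t ∣ p + q - 1 := ⟨g, by rw [ht, mul_comm]⟩
  have htq : t.Coprime q := Nat.Coprime.coprime_dvd_left hts hcq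
  have htp : t.Coprime (p - 1) := by
    apply Nat.Coprime.coprime_dvd_left hts
    rw [show p + q - 1 = (p - 1) + q by omega] at hcq ⊢
    rw [Nat.coprime_add_self_left] at hcq
    rw [Nat.coprime_self_add_left]
    exact hcq.symm
  rw [htt]
  constructor
  · have hgp : g ≤ p := Nat.le_of_dvd hp.pos ⟨r, hr⟩
    by_contra hc
    have : g * t ≤ g * 1 := Nat.mul_le_mul_left g (by omega)
    omega
  · intro z hz
    have hs : (p : ℤ) + q - 1 = (g : ℤ) * t := by
      have : ((p + q - 1 : ℕ) : ℤ) = ((g * t : ℕ) : ℤ) := by rw [ht]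
      rw [Nat.cast_sub (by omega)] at this
      exact_mod_cast this
    obtain ⟨m, e, d⟩ := core p q hp hq hpq g t r hs (by exact_mod_cast hr) (by omega) i (j + 1)
    rw [V_eq p q _ _ hp hq hpq (by omega), hz] at e
    have e' : ((p : ℤ) + q - 1) ^ i * (t : ℤ) ^ (j + 1) * z = m := by exact_mod_cast e
    have d1 : (t : ℤ) ∣ m := e' ▸ ((dvd_pow_self (t : ℤ) (by omega)).mul_left _).mul_right _
    have d2 := dvd_sub d1 (d (by omega))
    rw [sub_sub_cancel, show i + (j + 1) - 1 = i + j by omega] at d2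
    have d3 : t ∣ (p - 1) * q ^ i * r ^ (j + 1) * (i + j).choose i := by
      have : (((p - 1) * q ^ i * r ^ (j + 1) * (i + j).choose i : ℕ) : ℤ)
          = ((p : ℤ) - 1) * q ^ i * r ^ (j + 1) * ((i + j).choose i : ℤ) := by
        push_cast [Nat.cast_sub hp.one_le]
        ring
      rw [← this] at d2
      exact_mod_cast d2
    exact ((htp.mul_right (htq.pow_right i)).mul_right (htr.pow_right _)).dvd_of_dvd_mul_left d3

theorem result (p q i j : ℕ) (hp : p.Prime) (hq : q.Prime) (hpq : p ≠ q) :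
    1 < (p + q - 1) / Nat.gcd (p + q - 1) (p * q) ∧
    ∀ z : ℤ, a (p ^ (i + 1) * q ^ (j + 1)) = z →
      (p + q - 1) / Nat.gcd (p + q - 1) (p * q) ∣ (i + j).choose i := by
  have hp2 := hp.two_le
  have hq2 := hq.two_le
  have key : ∀ p q : ℕ, 2 ≤ p → p < q → ¬ q ∣ p + q - 1 := by
    intro p q h1 h2 h
    rw [show p + q - 1 = (p - 1) + q by omega, Nat.dvd_add_self_right] at h
    have := Nat.le_of_dvd (by omega) h
    omega
  rcases lt_or_gt_of_ne hpq with h | h
  · exact half p q i j hp hq hpq (key p q hp2 h)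
  · have := half q p j i hq hp hpq.symm (key q p hq2 h)
    rw [add_comm q p, mul_comm q p, mul_comm (q ^ (j + 1)), add_comm j i,
      ← Nat.choose_symm_add] at this
    exact this

end Pool.Agent.Results.MP_dc9045_nt.TwoPrimes
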